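import Pool.Agent.H.MP_64d93e_gt.Bridge

/-!
Solvsolitons among closed `G₂`-structures on a solvable Lie group maximize the Ricci pinching
functional. All definitions are in `Pool/Agent/H/MP_64d93e_gt/PDefs.lean`.
-/

namespace Pool.Agent.Results.MP_64d93e_gt.Pinching

open Pool.Agent.H.MP_64d93e_gt Pool.Agent.H.MP_64d93e_gt.P

/-- Affirmative answer to Q1 of MP_64d93e_gt, for all (unimodular or not) `μ`. -/
theorem result : ∀ μ ∈ P.Sclosed, ∀ lam ∈ (P.orbit μ ∩ P.Sclosed) \ P.Stf, P.IsSolvsoliton lam →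
    P.pinch lam = P.pinchSup μ ∧
      IsGreatest (P.pinch '' ((P.orbit μ ∩ P.Sclosed) \ P.Stf)) (P.pinch lam) := by
  intro μ _ lam hlam hsol
  have hg : IsGreatest (P.pinch '' ((P.orbit μ ∩ P.Sclosed) \ P.Stf)) (P.pinch lam) := by
    refine ⟨⟨lam, hlam, rfl⟩, ?_⟩
    rintro _ ⟨ν, ⟨⟨⟨h, hν⟩, hνc⟩, _⟩, rfl⟩
    obtain ⟨⟨⟨h', hl⟩, hc⟩, htf⟩ := hlam
    have hne : Pool.Agent.H.MP_64d93e_gt.ricSq (up lam hc.1.1.1) ≠ 0 :=
      ricSq_ne_zero (closed_up hc) fun h0 => htf (tf_up hc h0)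
    have hrel : ν = P.act (h'.symm.trans h) lam := by
      rw [hl, hν]
      funext x y
      simp [P.act]
    subst hrel
    have hmax := solvsoliton_max (solvsoliton_up hsol) hne
      (((co 7).symm.trans (h'.symm.trans h)).trans (co 7))
    rw [← up_act, pinch_up, pinch_up] at hmax
    exact hmax
  exact ⟨hg.csSup_eq.symm, hg⟩

end Pool.Agent.Results.MP_64d93e_gt.Pinching
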